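import Pool.Agent.H98.EX.LTargets

/-!
# The exact constant of the copolymer slope, row VVX: the mass of the pairs of sites of a cell
-/

set_option autoImplicit false

open MeasureTheory ProbabilityTheory Filter Topology
open scoped ENNReal

namespace Pool.Agent.H11.EX

open Pool.Agent.H95 Pool.Agent.H95.Cop
open Pool.Agent.H55.CG (VV Mo)
open Pool.Agent.H98.EX
open Pool.Agent.H98.SLN (RG TS MM YY sd)

/-- the renewal identity, summed -/
theorem ren_sum (K : PMF ℕ) (hK0 : K 0 = 0) (L : ℕ) :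
    ∑ n ∈ Finset.range L, uu (kk K) n * TS K (L - n) = L := by
  have h1 : (L : ℝ) = ∑ m ∈ Finset.range L,
      ∑ n ∈ Finset.range (m + 1), uu (kk K) n * tailK K (m + 1 - n) := by
    simp_rw [renewal_identity K hK0]; simp
  rw [h1]
  have h2 : ∑ m ∈ Finset.range L, ∑ n ∈ Finset.range (m + 1), uu (kk K) n * tailK K (m + 1 - n)
      = ∑ n ∈ Finset.range L, ∑ m ∈ Finset.Ico n L, uu (kk K) n * tailK K (m + 1 - n) := by
    apply Finset.sum_comm'
    intro m n
    simp only [Finset.mem_range, Finset.mem_Ico]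
    omega
  rw [h2]
  refine Finset.sum_congr rfl fun n hn => ?_
  rw [← Finset.mul_sum]
  congr 1
  unfold TS
  rw [Finset.sum_Ico_eq_sum_range]
  refine Finset.sum_congr rfl fun j hj => ?_
  congr 1; omega

/-- the mass of the pairs as a sum of renewal masses -/
theorem VV_eq (K : PMF ℕ) (k : ℕ) : VV K k = ∑ y ∈ Finset.range k, UU K (y + 1) := by
  rw [← Finset.sum_range_reflect]
  unfold VV UU
  refine Finset.sum_congr rfl fun y hy => ?_
  rw [Finset.mem_range] at hy
  rw [Finset.sum_Ico_eq_sum_range]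
  have e : k - 1 - y + 1 = k - y := by omega
  rw [e]
  refine Finset.sum_congr rfl fun j _ => ?_
  congr 1; omega

theorem sum_id (k : ℕ) : ∑ y ∈ Finset.range k, ((y : ℝ) + 1) = (k : ℝ) * (k + 1) / 2 := by
  induction k with
  | zero => simp
  | succ k ih =>
    rw [Finset.sum_range_succ, ih]
    push_cast
    ring

theorem pf_VVX (_hRID : Pool.Agent.H98.SLN.T_RID) (hUUP : Pool.Agent.H98.SLN.T_UUP)
    (_hTLQ : Pool.Agent.H98.SLN.T_TLQ) : T_VVX := by
  intro K α c δ r k q hR hkr
  have hK0 : K 0 = 0 := hR.rg.K0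
  obtain ⟨-, hmono, -, -⟩ := hUUP K hK0
  have hr0 := hR.r0
  have hr1 := hR.r1
  have hk0 : (0 : ℝ) ≤ k := Nat.cast_nonneg k
  have hk1 : (1 : ℝ) ≤ k := by nlinarith
  have hTS0 : ∀ L, 0 ≤ TS K L := fun L => Finset.sum_nonneg fun j _ => tailK_nonneg K _
  have hUU0 : ∀ L, 0 ≤ UU K L := fun L =>
    Finset.sum_nonneg fun n _ => uu_nonneg _ (kk_nonneg K) n
  constructor
  · have h1 : ∀ y ∈ Finset.range k, ((y : ℝ) + 1) ≤ TS K k * UU K (y + 1) := by
      intro y hy
      rw [Finset.mem_range] at hy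
      have h2 := le_UU_mul K hK0 (y + 1)
      have h3 := mul_le_mul_of_nonneg_left (hmono (y + 1) k (by omega)) (hUU0 (y + 1))
      push_cast at h2
      calc ((y : ℝ) + 1) ≤ UU K (y + 1) * TS K (y + 1) := h2
        _ ≤ UU K (y + 1) * TS K k := h3
        _ = _ := mul_comm _ _
    have h4 := Finset.sum_le_sum h1
    rw [sum_id, ← Finset.mul_sum, ← VV_eq] at h4
    nlinarith
  · set m : ℕ := ⌈r * k⌉₊ with hm
    have hm1 : r * k ≤ m := Nat.le_ceil _
    have hm2 : (m : ℝ) ≤ r * k + 1 := (Nat.ceil_lt_add_one (by positivity)).le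
    have hmk : m ≤ k := by
      have h1 : r * k ≤ k := by nlinarith
      exact Nat.ceil_le.2 h1
    have hTm := hR.sv m hm1 hmk
    have h1 : ∀ y ∈ Finset.range k,
        (1 - r) * TS K k * UU K (y + 1) ≤ ((y : ℝ) + 1) + (r * k + 1) := by
      intro y hy
      have h2 := ren_sum K hK0 (y + 1 + m)
      have h3 : ∑ n ∈ Finset.range (y + 1), uu (kk K) n * TS K (y + 1 + m - n) ≤
          ∑ n ∈ Finset.range (y + 1 + m), uu (kk K) n * TS K (y + 1 + m - n) := by
        apply Finset.sum_le_sum_of_subset_of_nonneg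
        · exact Finset.range_mono (by omega)
        · intro i _ _
          exact mul_nonneg (uu_nonneg _ (kk_nonneg K) i) (hTS0 _)
      have h4 : (1 - r) * TS K k * UU K (y + 1) ≤
          ∑ n ∈ Finset.range (y + 1), uu (kk K) n * TS K (y + 1 + m - n) := by
        unfold UU
        rw [Finset.mul_sum]
        refine Finset.sum_le_sum fun n hn => ?_
        rw [Finset.mem_range] at hn
        rw [mul_comm]
        refine mul_le_mul_of_nonneg_left ?_ (uu_nonneg _ (kk_nonneg K) n)
        exact hTm.trans (hmono m _ (by omega))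
      rw [h2] at h3
      push_cast at h3
      linarith
    have h4 := Finset.sum_le_sum h1
    rw [← Finset.mul_sum, ← VV_eq, Finset.sum_add_distrib, sum_id, Finset.sum_const,
      Finset.card_range, nsmul_eq_mul] at h4
    set V := VV K k with hV
    set T := TS K k with hT
    -- `2 (1 - r) T V ≤ k ^ 2 + 3 k + 2 r k ^ 2`
    have h5 : (1 - r) * (2 * T * V) ≤ (k : ℝ) ^ 2 * (1 + 19 / 8 * r) := by
      nlinarith
    have h6 : (k : ℝ) ^ 2 * (1 + 19 / 8 * r) ≤ (1 - r) * ((1 + 4 * r) * (k : ℝ) ^ 2) := by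
      have h7 : 1 + 19 / 8 * r ≤ (1 - r) * (1 + 4 * r) := by nlinarith
      nlinarith [sq_nonneg (k : ℝ)]
    have h8 : (0 : ℝ) < 1 - r := by linarith
    exact le_of_mul_le_mul_left (h5.trans h6) h8

end Pool.Agent.H11.EX
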